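import Pool.Agent.Lib.MP_e3cc28_alA.AG02

set_option autoImplicit false

namespace Pool.Agent.Results.MP_e3cc28_al.ComponentReduction

open Subgroup
open scoped commutatorElement

universe u

/-- Property `(∗)`: for all Sylow 2-subgroups `P`, `Q` of `G` there is a Sylow 2-subgroup `S` of
`⟨P, Q⟩` such that `P ∩ Q` is contained in `S` and is a normal subgroup of `S`. -/
def Star (G : Type u) [Group G] : Prop :=
  ∀ P Q : Sylow 2 G, ∃ S : Sylow 2 ↥((P : Subgroup G) ⊔ (Q : Subgroup G)),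
    ((P : Subgroup G) ⊓ (Q : Subgroup G)).subgroupOf ((P : Subgroup G) ⊔ (Q : Subgroup G)) ≤ S ∧
    ((((P : Subgroup G) ⊓ (Q : Subgroup G)).subgroupOf
      ((P : Subgroup G) ⊔ (Q : Subgroup G))).subgroupOf
        (S : Subgroup ↥((P : Subgroup G) ⊔ (Q : Subgroup G)))).Normal

/-- The strong form of `(∗)` for a group `X` and a subgroup `L`: for all Sylow 2-subgroups `P`, `Q`
of `X` there is `h ∈ ⟨P ∩ L, Q ∩ L⟩` such that `P ∩ Q` is contained in `hPh⁻¹` and is a normal
subgroup of `hPh⁻¹`. -/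
def StrongStar {X : Type u} [Group X] (L : Subgroup X) : Prop :=
  ∀ P Q : Sylow 2 X, ∃ h ∈ ((P : Subgroup X) ⊓ L) ⊔ ((Q : Subgroup X) ⊓ L),
    (∀ d, d ∈ P → d ∈ Q → h⁻¹ * d * h ∈ P) ∧
    ∀ s ∈ P, ∀ d, d ∈ P → d ∈ Q →
      (h * s * h⁻¹) * d * (h * s * h⁻¹)⁻¹ ∈ P ∧ (h * s * h⁻¹) * d * (h * s * h⁻¹)⁻¹ ∈ Q

/-- Every nonabelian composition factor of `G` has even order: if `A` is a subnormal subgroup of
`G`, `B` is a normal subgroup of `A` and `A/B` is simple and not abelian, then the order of `A/B` is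
even. -/
def EvenCompositionFactors (G : Type u) [Group G] : Prop :=
  ∀ (A B : Subgroup G) [(B.subgroupOf A).Normal], A.IsSubnormal → B ≤ A →
    IsSimpleGroup (A ⧸ B.subgroupOf A) → (∃ x y : A ⧸ B.subgroupOf A, x * y ≠ y * x) →
    2 ∣ Nat.card (A ⧸ B.subgroupOf A)

/-- `R` is the largest soluble normal subgroup of `G`. -/
def IsSolubleRadical {G : Type u} [Group G] (R : Subgroup G) : Prop :=
  Group.IsSolvable R ∧ ∀ S : Subgroup G, S.Normal → Group.IsSolvable S → S ≤ R

/-- `O^{2'}(G)`: the subgroup generated by all the Sylow 2-subgroups of `G`. -/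
def sylowJoin (G : Type u) [Group G] : Subgroup G := ⨆ P : Sylow 2 G, (P : Subgroup G)

/-- `N` is a minimal normal subgroup of `K`. -/
def IsMinimalNormal {K : Type u} [Group K] (N : Subgroup K) : Prop :=
  N.Normal ∧ N ≠ ⊥ ∧ ∀ B : Subgroup K, B.Normal → B ≤ N → B = ⊥ ∨ B = N

/-- `N/M` is a chief factor of `G`. -/
def IsChiefFactor {G : Type u} [Group G] (M N : Subgroup G) : Prop :=
  M.Normal ∧ N.Normal ∧ M < N ∧ ∀ K : Subgroup G, K.Normal → M ≤ K → K ≤ N → K = M ∨ K = N

/-- For every Sylow 2-subgroup `P` of `G` and every irreducible `P`-submodule `W/M` of `N/M`, each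
element of `P` either centralises `W/M` or fixes no nonidentity element of `W/M`. -/
def TrivialOrFree {G : Type u} [Group G] (M N : Subgroup G) : Prop :=
  ∀ P : Sylow 2 G, ∀ W : Subgroup G, M < W → W ≤ N → (∀ s ∈ P, ∀ w ∈ W, s * w * s⁻¹ ∈ W) →
    (∀ K : Subgroup G, M ≤ K → K ≤ W → (∀ s ∈ P, ∀ w ∈ K, s * w * s⁻¹ ∈ K) → K = M ∨ K = W) →
    ∀ x ∈ P, (∀ w ∈ W, ⁅x, w⁆ ∈ M) ∨ (∀ w ∈ W, ⁅x, w⁆ ∈ M → w ∈ M)

/-- The condition of the soluble radical `R`: `TrivialOrFree` for the chief factors of `G` of odd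
order below `R`. -/
def RadicalCondition {G : Type u} [Group G] (R : Subgroup G) : Prop :=
  ∀ M N : Subgroup G, IsChiefFactor M N → N ≤ R → Odd (M.relIndex N) → TrivialOrFree M N

/-- Let `G` be a finite group whose nonabelian composition factors have even order, `R` its soluble
radical and `K = O^{2'}(G/R)`. If `G` has `(∗)`, then the condition on the chief factors below `R`
is satisfied and, for every minimal normal subgroup `N` of `K`, `N` is simple and `K/C_K(N)` has
`(∗)`. Conversely, if the condition on the chief factors below `R` is satisfied and, for every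
minimal normal subgroup `N` of `K`, the group `K/C_K(N)` with its subgroup `N C_K(N)/C_K(N)` has the
strong form of `(∗)`, then `G` has `(∗)`. -/
theorem result (G : Type u) [Group G] [Finite G] (hG : EvenCompositionFactors G)
    (R : Subgroup G) [R.Normal] (hR : IsSolubleRadical R) :
    (Star G → RadicalCondition R ∧
      ∀ (N : Subgroup (sylowJoin (G ⧸ R))) [N.Normal], IsMinimalNormal N →
        IsSimpleGroup N ∧ Star (sylowJoin (G ⧸ R) ⧸ centralizer (N : Set (sylowJoin (G ⧸ R))))) ∧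
    ((RadicalCondition R ∧
      ∀ (N : Subgroup (sylowJoin (G ⧸ R))) [N.Normal], IsMinimalNormal N →
        StrongStar (N.map
          (QuotientGroup.mk' (centralizer (N : Set (sylowJoin (G ⧸ R))))))) → Star G) := by
  have hfR : Function.Surjective (QuotientGroup.mk' R) := QuotientGroup.mk'_surjective R
  have hker : (QuotientGroup.mk' R).ker = R := QuotientGroup.ker_mk' R
  have hsol : Group.IsSolvable (QuotientGroup.mk' R).ker := by rw [hker]; exact hR.1
  have hstar : Star G ↔ Pool.Agent.Lib.MP_e3cc28_al.Star' G :=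
    Pool.Agent.Lib.MP_e3cc28_al.star_iff
  have hab : Pool.Agent.Lib.MP_e3cc28_alA.NoAb (G ⧸ R) :=
    Pool.Agent.Lib.MP_e3cc28_alA.noAb_quot R hR.1 hR.2
  have habK : Pool.Agent.Lib.MP_e3cc28_alA.NoAb (sylowJoin (G ⧸ R)) :=
    hab.normal _ Pool.Agent.Lib.MP_e3cc28_alA.O2'_normal
  have heven : Pool.Agent.Lib.MP_e3cc28_alG.EvenSub (sylowJoin (G ⧸ R)) :=
    (Pool.Agent.Lib.MP_e3cc28_alG.EvenFactors.quot (G := G) hG R).normal _
      Pool.Agent.Lib.MP_e3cc28_alA.O2'_normal
  rw [hstar]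
  constructor
  · intro h
    have hq : Pool.Agent.Lib.MP_e3cc28_al.Star' (G ⧸ R) :=
      Pool.Agent.Lib.MP_e3cc28_al.star_quot _ G (G ⧸ R) (QuotientGroup.mk' R) hfR hsol le_rfl h
    have hK : Pool.Agent.Lib.MP_e3cc28_al.Star' (sylowJoin (G ⧸ R)) :=
      Pool.Agent.Lib.MP_e3cc28_alA.star_O2'_iff.1 hq
    refine ⟨?_, ?_⟩
    · intro M N hc hNR hodd
      have := hc.1
      have := hc.2.1
      exact Pool.Agent.Lib.MP_e3cc28_al.condIrr_of_condS hc.1
        (Pool.Agent.Lib.MP_e3cc28_al.condS_of_star (QuotientGroup.mk' R) hsol h M N hc.2.2.1.le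
          (by rw [hker]; exact hNR) hodd)
    · intro N _ hN
      refine ⟨Pool.Agent.Lib.MP_e3cc28_alG.min_normal_simple'
        Pool.Agent.Lib.MP_e3cc28_alA.O2'_O2' hK habK heven hN, ?_⟩
      exact Pool.Agent.Lib.MP_e3cc28_al.star_iff.2
        (Pool.Agent.Lib.MP_e3cc28_alA.star_quot_any (QuotientGroup.mk' _)
          (QuotientGroup.mk'_surjective _) hK)
  · rintro ⟨h1, h2⟩
    have hK : Pool.Agent.Lib.MP_e3cc28_al.Star' (sylowJoin (G ⧸ R)) := by
      refine Pool.Agent.Lib.MP_e3cc28_alG.star_of_strong habK fun N _ hN P Q hP hQ => ?_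
      obtain ⟨P', rfl⟩ := Pool.Agent.Lib.MP_e3cc28_alA.sylIn_top_iff.1 hP
      obtain ⟨Q', rfl⟩ := Pool.Agent.Lib.MP_e3cc28_alA.sylIn_top_iff.1 hQ
      exact h2 N hN P' Q'
    refine Pool.Agent.Lib.MP_e3cc28_al.star_of_chief _ G (G ⧸ R) (QuotientGroup.mk' R) hfR hsol
      le_rfl (Pool.Agent.Lib.MP_e3cc28_alA.star_O2'_iff.2 hK) ?_
    intro M N hc hN hodd
    rw [hker] at hN
    have := hR.1
    exact Pool.Agent.Lib.MP_e3cc28_al.condS_of_condIrr hc
      (Group.isSolvable_of_isSolvable_injective (f := Subgroup.inclusion hN)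
        (Subgroup.inclusion_injective hN)) hodd (h1 M N hc hN hodd)

end Pool.Agent.Results.MP_e3cc28_al.ComponentReduction
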