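import Pool.Agent.Lib.MP_e3cc28_alA.AI08

set_option autoImplicit false

namespace Pool.Agent.Results.MP_e3cc28_al.FactorClasses

open Subgroup
open scoped commutatorElement

universe u

/-- Property `(∗)`: for all Sylow 2-subgroups `P`, `Q` of `G` there is a Sylow 2-subgroup `S` of
`⟨P, Q⟩` such that `P ∩ Q` is contained in `S` and is a normal subgroup of `S`. -/
def Star (G : Type u) [Group G] : Prop :=
  ∀ P Q : Sylow 2 G, ∃ S : Sylow 2 ↥((P : Subgroup G) ⊔ (Q : Subgroup G)),
    ((P : Subgroup G) ⊓ (Q : Subgroup G)).subgroupOf ((P : Subgroup G) ⊔ (Q : Subgroup G)) ≤ S ∧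
    ((((P : Subgroup G) ⊓ (Q : Subgroup G)).subgroupOf
      ((P : Subgroup G) ⊔ (Q : Subgroup G))).subgroupOf
        (S : Subgroup ↥((P : Subgroup G) ⊔ (Q : Subgroup G)))).Normal

/-- Bender type: distinct Sylow 2-subgroups of `X` intersect trivially, and their number is
`|P| + 1`, where `P` is a Sylow 2-subgroup. (The groups `L_2(2^n)`, `Sz(2^n)`, `U_3(2^n)` have this
property.) -/
def BenderType (X : Type u) [Group X] : Prop :=
  (∀ P Q : Sylow 2 X, P ≠ Q → ∀ x, x ∈ P → x ∈ Q → x = 1) ∧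
    ∀ P : Sylow 2 X, Nat.card (Sylow 2 X) = Nat.card P + 1

/-- The condition on the outer automorphisms of 2-power order: for every automorphism `φ` of `X` of
2-power order which is not inner there is an inner automorphism such that the product `ψ` of the two
has 2-power order, preserves two Sylow 2-subgroups `T`, `U` with `T ∩ U = 1`, and centralises no
Sylow 2-subgroup of `X`. (It is satisfied if every automorphism of 2-power order is inner.) -/
def OuterCondition (X : Type u) [Group X] : Prop :=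
  ∀ φ : MulAut X, (∃ k : ℕ, φ ^ 2 ^ k = 1) → (∀ a : X, φ ≠ MulAut.conj a) →
    ∃ (a : X) (T U : Sylow 2 X), (∃ k : ℕ, (MulAut.conj a * φ) ^ 2 ^ k = 1) ∧
      (∀ x, x ∈ T → x ∈ U → x = 1) ∧ (∀ x ∈ T, (MulAut.conj a * φ) x ∈ T) ∧
      (∀ x ∈ U, (MulAut.conj a * φ) x ∈ U) ∧ ∀ V : Sylow 2 X, ∃ v ∈ V, (MulAut.conj a * φ) v ≠ v

/-- The weak form of `(∗)`: for all Sylow 2-subgroups `P`, `Q` of `X` there is a Sylow 2-subgroup
`S` of `X` (not necessarily contained in `⟨P, Q⟩`) such that `P ∩ Q` is contained in `S` and normal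
in `S`. -/
def WeakStar (X : Type u) [Group X] : Prop :=
  ∀ P Q : Sylow 2 X, ∃ S : Sylow 2 X, (∀ x, x ∈ P → x ∈ Q → x ∈ S) ∧
    ∀ s ∈ S, ∀ d, d ∈ P → d ∈ Q → s * d * s⁻¹ ∈ P ∧ s * d * s⁻¹ ∈ Q

/-- The simple groups which may occur as composition factors: `Alt(n)`, `n ≥ 5`; the groups of
Bender type; the groups of even order with the condition on the outer automorphisms of 2-power
order; the groups without the weak form of `(∗)`. -/
def Listed (X : Type u) [Group X] : Prop :=
  (∃ n, 5 ≤ n ∧ Nonempty (X ≃* alternatingGroup (Fin n))) ∨ BenderType X ∨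
    (2 ∣ Nat.card X ∧ OuterCondition X) ∨ ¬ WeakStar X

/-- Every nonabelian composition factor of `G` is listed: if `A` is a subnormal subgroup of `G`,
`B` is a normal subgroup of `A` and `A/B` is simple and not abelian, then `A/B` is listed. -/
def ListedCompositionFactors (G : Type u) [Group G] : Prop :=
  ∀ (A B : Subgroup G) [(B.subgroupOf A).Normal], A.IsSubnormal → B ≤ A →
    IsSimpleGroup (A ⧸ B.subgroupOf A) → (∃ x y : A ⧸ B.subgroupOf A, x * y ≠ y * x) →
    Listed (A ⧸ B.subgroupOf A)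

/-- `R` is the largest soluble normal subgroup of `G`. -/
def IsSolubleRadical {G : Type u} [Group G] (R : Subgroup G) : Prop :=
  Group.IsSolvable R ∧ ∀ S : Subgroup G, S.Normal → Group.IsSolvable S → S ≤ R

/-- `O^{2'}(G)`: the subgroup generated by all the Sylow 2-subgroups of `G`. -/
def sylowJoin (G : Type u) [Group G] : Subgroup G := ⨆ P : Sylow 2 G, (P : Subgroup G)

/-- `K` is isomorphic to a subgroup `K'` of `L_1 × ... × L_a × Sym(6)^b` which contains
`L_1 × ... × L_a × Alt(6)^b`, where the `L_i` are nonabelian simple groups (of permutations of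
finite sets) with `(∗)`, each of them isomorphic to `Alt(5)`, of Bender type or with the condition
on the outer automorphisms of 2-power order. -/
def InClass (K : Type u) [Group K] : Prop :=
  ∃ (a b : ℕ) (m : Fin a → ℕ) (L : ∀ i, Subgroup (Equiv.Perm (Fin (m i)))),
    (∀ i, IsSimpleGroup (L i) ∧ (∃ x y : L i, x * y ≠ y * x) ∧ Star (L i) ∧
      (Nonempty (L i ≃* alternatingGroup (Fin 5)) ∨ BenderType (L i) ∨ OuterCondition (L i))) ∧
    ∃ K' : Subgroup ((∀ i, L i) × (Fin b → Equiv.Perm (Fin 6))),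
      (∀ x, (∀ j, x.2 j ∈ alternatingGroup (Fin 6)) → x ∈ K') ∧ Nonempty (K ≃* K')

/-- `N/M` is a chief factor of `G`. -/
def IsChiefFactor {G : Type u} [Group G] (M N : Subgroup G) : Prop :=
  M.Normal ∧ N.Normal ∧ M < N ∧ ∀ K : Subgroup G, K.Normal → M ≤ K → K ≤ N → K = M ∨ K = N

/-- For every Sylow 2-subgroup `P` of `G` and every irreducible `P`-submodule `W/M` of `N/M`, each
element of `P` either centralises `W/M` or fixes no nonidentity element of `W/M`. -/
def TrivialOrFree {G : Type u} [Group G] (M N : Subgroup G) : Prop :=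
  ∀ P : Sylow 2 G, ∀ W : Subgroup G, M < W → W ≤ N → (∀ s ∈ P, ∀ w ∈ W, s * w * s⁻¹ ∈ W) →
    (∀ K : Subgroup G, M ≤ K → K ≤ W → (∀ s ∈ P, ∀ w ∈ K, s * w * s⁻¹ ∈ K) → K = M ∨ K = W) →
    ∀ x ∈ P, (∀ w ∈ W, ⁅x, w⁆ ∈ M) ∨ (∀ w ∈ W, ⁅x, w⁆ ∈ M → w ∈ M)

/-- Let `G` be a finite group all of whose nonabelian composition factors are listed (alternating,
of Bender type, of even order with `OuterCondition`, or without the weak form of `(∗)`), and let `R`
be its soluble radical. Then `G` has `(∗)` if and only if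
`O^{2'}(G/R)` is isomorphic to a group between `L_1 × ... × L_a × Alt(6)^b` and
`L_1 × ... × L_a × Sym(6)^b` with simple groups `L_i` with `(∗)` as in `InClass`, and for every
chief factor `N/M` of `G` of odd order with `N ≤ R`, every Sylow 2-subgroup `P` of `G` and every
irreducible `P`-submodule `W/M` of `N/M`, each element of `P` centralises `W/M` or fixes no
nonidentity element of `W/M`. -/
theorem result (G : Type u) [Group G] [Finite G] (hG : ListedCompositionFactors G)
    (R : Subgroup G) [R.Normal] (hR : IsSolubleRadical R) :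
    Star G ↔ InClass (sylowJoin (G ⧸ R)) ∧
      ∀ M N : Subgroup G, IsChiefFactor M N → N ≤ R → Odd (M.relIndex N) →
        TrivialOrFree M N := by
  have hfR : Function.Surjective (QuotientGroup.mk' R) := QuotientGroup.mk'_surjective R
  have hker : (QuotientGroup.mk' R).ker = R := QuotientGroup.ker_mk' R
  have hsol : Group.IsSolvable (QuotientGroup.mk' R).ker := by rw [hker]; exact hR.1
  have hstar : Star G ↔ Pool.Agent.Lib.MP_e3cc28_al.Star' G :=
    Pool.Agent.Lib.MP_e3cc28_al.star_iff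
  have hcl : Pool.Agent.Lib.MP_e3cc28_alI.InClass' (sylowJoin (G ⧸ R)) ↔
      InClass (sylowJoin (G ⧸ R)) := by
    constructor
    · rintro ⟨a, b, m, L, hL, h⟩
      exact ⟨a, b, m, L, fun i => ⟨(hL i).1, (hL i).2.1,
        Pool.Agent.Lib.MP_e3cc28_al.star_iff.2 (hL i).2.2.1, (hL i).2.2.2⟩, h⟩
    · rintro ⟨a, b, m, L, hL, h⟩
      exact ⟨a, b, m, L, fun i => ⟨(hL i).1, (hL i).2.1,
        Pool.Agent.Lib.MP_e3cc28_al.star_iff.1 (hL i).2.2.1, (hL i).2.2.2⟩, h⟩
  have hq : Pool.Agent.Lib.MP_e3cc28_al.Star' (G ⧸ R) ↔ InClass (sylowJoin (G ⧸ R)) :=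
    (Pool.Agent.Lib.MP_e3cc28_alI.star_iff_inClass'
      (Pool.Agent.Lib.MP_e3cc28_alA.noAb_quot R hR.1 hR.2)
      (Pool.Agent.Lib.MP_e3cc28_alI.ListedFactors2.quot (G := G) hG R)).trans hcl
  rw [hstar]
  constructor
  · intro h
    refine ⟨hq.1 (Pool.Agent.Lib.MP_e3cc28_al.star_quot _ G (G ⧸ R)
      (QuotientGroup.mk' R) hfR hsol le_rfl h), ?_⟩
    intro M N hc hNR hodd
    have := hc.1
    have := hc.2.1
    exact Pool.Agent.Lib.MP_e3cc28_al.condIrr_of_condS hc.1
      (Pool.Agent.Lib.MP_e3cc28_al.condS_of_star (QuotientGroup.mk' R) hsol h M N hc.2.2.1.le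
        (by rw [hker]; exact hNR) hodd)
  · rintro ⟨h1, h2⟩
    refine Pool.Agent.Lib.MP_e3cc28_al.star_of_chief _ G (G ⧸ R) (QuotientGroup.mk' R) hfR hsol
      le_rfl (hq.2 h1) ?_
    intro M N hc hN hodd
    rw [hker] at hN
    have := hR.1
    exact Pool.Agent.Lib.MP_e3cc28_al.condS_of_condIrr hc
      (Group.isSolvable_of_isSolvable_injective (f := Subgroup.inclusion hN)
        (Subgroup.inclusion_injective hN)) hodd (h2 M N hc hN hodd)

end Pool.Agent.Results.MP_e3cc28_al.FactorClasses
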