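import Pool.Agent.Lib.MP_e3cc28_al.S5

set_option autoImplicit false

namespace Pool.Agent.Results.MP_e3cc28_al.NotEveryGroup

/-- In the symmetric group of degree 5 there are Sylow 2-subgroups `P` and `Q` such that no Sylow
2-subgroup of `⟨P, Q⟩` contains `P ∩ Q` as a normal subgroup. -/
theorem result : ∃ P Q : Sylow 2 (Equiv.Perm (Fin 5)),
    ¬ ∃ S : Sylow 2 ↥((P : Subgroup (Equiv.Perm (Fin 5))) ⊔ (Q : Subgroup (Equiv.Perm (Fin 5)))),
      ((P : Subgroup (Equiv.Perm (Fin 5))) ⊓ (Q : Subgroup (Equiv.Perm (Fin 5)))).subgroupOf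
        ((P : Subgroup (Equiv.Perm (Fin 5))) ⊔ (Q : Subgroup (Equiv.Perm (Fin 5)))) ≤ S ∧
      ((((P : Subgroup (Equiv.Perm (Fin 5))) ⊓ (Q : Subgroup (Equiv.Perm (Fin 5)))).subgroupOf
        ((P : Subgroup (Equiv.Perm (Fin 5))) ⊔ (Q : Subgroup (Equiv.Perm (Fin 5))))).subgroupOf
          (S : Subgroup ↥((P : Subgroup (Equiv.Perm (Fin 5))) ⊔
            (Q : Subgroup (Equiv.Perm (Fin 5)))))).Normal := by
  by_contra hcon
  push Not at hcon
  exact Pool.Agent.Lib.MP_e3cc28_al.not_star_S5 (Pool.Agent.Lib.MP_e3cc28_al.star_iff.1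
    (fun P Q => hcon P Q))

end Pool.Agent.Results.MP_e3cc28_al.NotEveryGroup
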