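import Pool.Agent.Lib.MP_e3cc28_al.Irr

set_option autoImplicit false

namespace Pool.Agent.Results.MP_e3cc28_al.SolubleRadicalCriterion

open Subgroup
open scoped commutatorElement

universe u

/-- Property `(∗)`: for all Sylow 2-subgroups `P`, `Q` of `G` there is a Sylow 2-subgroup `S` of
`⟨P, Q⟩` such that `P ∩ Q` is contained in `S` and is a normal subgroup of `S`. -/
def Star (G : Type u) [Group G] : Prop :=
  ∀ P Q : Sylow 2 G, ∃ S : Sylow 2 ↥((P : Subgroup G) ⊔ (Q : Subgroup G)),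
    ((P : Subgroup G) ⊓ (Q : Subgroup G)).subgroupOf ((P : Subgroup G) ⊔ (Q : Subgroup G)) ≤ S ∧
    ((((P : Subgroup G) ⊓ (Q : Subgroup G)).subgroupOf
      ((P : Subgroup G) ⊔ (Q : Subgroup G))).subgroupOf
        (S : Subgroup ↥((P : Subgroup G) ⊔ (Q : Subgroup G)))).Normal

/-- `C_P(vM)`: the subgroup of all `x ∈ P` whose image in `G/M` commutes with `vM`. -/
def stab {G : Type u} [Group G] (P M : Subgroup G) [M.Normal] (v : G) : Subgroup G :=
  P ⊓ (Subgroup.centralizer {(QuotientGroup.mk' M v : G ⧸ M)}).comap (QuotientGroup.mk' M)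

/-- For every Sylow 2-subgroup `P` of `G` and every `v ∈ N` the subgroup `C_P(vM)` is normal
in `P`. -/
def StabilisersNormal {G : Type u} [Group G] (M N : Subgroup G) [M.Normal] : Prop :=
  ∀ P : Sylow 2 G, ∀ v ∈ N, ((stab (P : Subgroup G) M v).subgroupOf (P : Subgroup G)).Normal

/-- `N/M` is a chief factor of `G`. -/
def IsChiefFactor {G : Type u} [Group G] (M N : Subgroup G) : Prop :=
  M.Normal ∧ N.Normal ∧ M < N ∧ ∀ K : Subgroup G, K.Normal → M ≤ K → K ≤ N → K = M ∨ K = N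

/-- For every Sylow 2-subgroup `P` of `G` and every irreducible `P`-submodule `W/M` of `N/M`, each
element of `P` either centralises `W/M` or fixes no nonidentity element of `W/M`. -/
def TrivialOrFree {G : Type u} [Group G] (M N : Subgroup G) : Prop :=
  ∀ P : Sylow 2 G, ∀ W : Subgroup G, M < W → W ≤ N → (∀ s ∈ P, ∀ w ∈ W, s * w * s⁻¹ ∈ W) →
    (∀ K : Subgroup G, M ≤ K → K ≤ W → (∀ s ∈ P, ∀ w ∈ K, s * w * s⁻¹ ∈ K) → K = M ∨ K = W) →
    ∀ x ∈ P, (∀ w ∈ W, ⁅x, w⁆ ∈ M) ∨ (∀ w ∈ W, ⁅x, w⁆ ∈ M → w ∈ M)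

lemma stabilisersNormal_iff {G : Type u} [Group G] (M N : Subgroup G) [M.Normal] :
    StabilisersNormal M N ↔ Pool.Agent.Lib.MP_e3cc28_al.CondS M N := by
  have mem_stab : ∀ (P : Sylow 2 G) (v x : G),
      x ∈ stab (P : Subgroup G) M v ↔ x ∈ P ∧ ⁅x, v⁆ ∈ M := by
    intro P v x
    rw [stab, Subgroup.mem_inf, Subgroup.mem_comap, Subgroup.mem_centralizer_singleton_iff,
      ← commutatorElement_eq_one_iff_mul_comm, ← map_commutatorElement, ← MonoidHom.mem_ker,
      QuotientGroup.ker_mk']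
    rfl
  constructor
  · intro h P v hv x hx hxv s hs
    have h1 := (h P v hv).conj_mem ⟨x, hx⟩
      (Subgroup.mem_subgroupOf.2 ((mem_stab P v x).2 ⟨hx, hxv⟩)) ⟨s, hs⟩
    exact ((mem_stab P v _).1 (Subgroup.mem_subgroupOf.1 h1)).2
  · intro h P v hv
    refine ⟨?_⟩
    rintro ⟨x, hx⟩ hxs ⟨s, hs⟩
    have h1 := (mem_stab P v x).1 (Subgroup.mem_subgroupOf.1 hxs)
    refine Subgroup.mem_subgroupOf.2 ((mem_stab P v _).2 ⟨?_, h P v hv x hx h1.2 s hs⟩)
    exact mul_mem (mul_mem hs hx) (inv_mem hs)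

/-- Let `G` be a finite group and `R` a soluble normal subgroup. Then the following are
equivalent: `G` has `(∗)`; `G/R` has `(∗)` and stabilisers are normal for all odd-order sections
`N/M` with `M ≤ N ≤ R` normal in `G`; the same for the chief factors of odd order below `R` only;
and the description of these in terms of irreducible `P`-submodules. -/
theorem result (G : Type u) [Group G] [Finite G] (R : Subgroup G) [R.Normal]
    (hR : Group.IsSolvable R) :
    [Star G,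
      (R = ⊤ ∨ Star (G ⧸ R)) ∧ ∀ (M N : Subgroup G) [M.Normal] [N.Normal], M ≤ N → N ≤ R →
        Odd (M.relIndex N) → StabilisersNormal M N,
      (R = ⊤ ∨ Star (G ⧸ R)) ∧ ∀ (M N : Subgroup G) [M.Normal], IsChiefFactor M N → N ≤ R →
        Odd (M.relIndex N) → StabilisersNormal M N,
      (R = ⊤ ∨ Star (G ⧸ R)) ∧ ∀ M N : Subgroup G, IsChiefFactor M N → N ≤ R →
        Odd (M.relIndex N) → TrivialOrFree M N].TFAE := by
  have hfR : Function.Surjective (QuotientGroup.mk' R) := QuotientGroup.mk'_surjective R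
  have hker : (QuotientGroup.mk' R).ker = R := QuotientGroup.ker_mk' R
  have hsol : Group.IsSolvable (QuotientGroup.mk' R).ker := by rw [hker]; exact hR
  have hstar : Star G ↔ Pool.Agent.Lib.MP_e3cc28_al.Star' G :=
    Pool.Agent.Lib.MP_e3cc28_al.star_iff
  have hstarR : Star (G ⧸ R) ↔ Pool.Agent.Lib.MP_e3cc28_al.Star' (G ⧸ R) :=
    Pool.Agent.Lib.MP_e3cc28_al.star_iff
  have htop : (R = ⊤ ∨ Star (G ⧸ R)) → Pool.Agent.Lib.MP_e3cc28_al.Star' (G ⧸ R) := by
    rintro (h | h)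
    · have hsub : Subsingleton (G ⧸ R) := QuotientGroup.subsingleton_iff.2 h
      intro P Q
      refine ⟨P, le_sup_left, fun x hx _ => hx, fun s hs d hd hd' => ?_⟩
      rw [Subsingleton.elim (s * d * s⁻¹) d]
      exact ⟨hd, hd'⟩
    · exact hstarR.1 h
  tfae_have 1 → 2 := by
    intro h
    refine ⟨Or.inr (hstarR.2 (Pool.Agent.Lib.MP_e3cc28_al.star_quot _ G (G ⧸ R)
      (QuotientGroup.mk' R) hfR hsol le_rfl (hstar.1 h))), ?_⟩
    intro M N _ _ hMN hNR hodd
    rw [stabilisersNormal_iff]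
    exact Pool.Agent.Lib.MP_e3cc28_al.condS_of_star (QuotientGroup.mk' R) hsol (hstar.1 h) M N hMN
      (by rw [hker]; exact hNR) hodd
  tfae_have 2 → 3 := by
    rintro ⟨h1, h2⟩
    refine ⟨h1, ?_⟩
    intro M N _ hc hNR hodd
    have := hc.2.1
    exact h2 M N hc.2.2.1.le hNR hodd
  tfae_have 3 → 4 := by
    rintro ⟨h1, h2⟩
    refine ⟨h1, ?_⟩
    intro M N hc hNR hodd
    have := hc.1
    exact Pool.Agent.Lib.MP_e3cc28_al.condIrr_of_condS hc.1
      ((stabilisersNormal_iff M N).1 (h2 M N hc hNR hodd))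
  tfae_have 4 → 1 := by
    rintro ⟨h1, h2⟩
    rw [hstar]
    refine Pool.Agent.Lib.MP_e3cc28_al.star_of_chief _ G (G ⧸ R) (QuotientGroup.mk' R) hfR hsol
      le_rfl (htop h1) ?_
    intro M N hc hN hodd
    rw [hker] at hN
    exact Pool.Agent.Lib.MP_e3cc28_al.condS_of_condIrr hc
      (Group.isSolvable_of_isSolvable_injective (f := Subgroup.inclusion hN)
        (Subgroup.inclusion_injective hN)) hodd (h2 M N hc hN hodd)
  tfae_finish

end Pool.Agent.Results.MP_e3cc28_al.SolubleRadicalCriterion
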